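import Pool.Agent.T9h42.DD.Val
import Pool.Agent.T9h42.SP.Minus

/-!
# The assembly map in degree minus one for Dedekind domains of characteristic zero

Let `R` be a Dedekind domain of characteristic zero with field of fractions `F`. For a nonzero prime
ideal `v` let `F_v` and `R_v` be the completions. For a group `G` let `KM(G)` be the cokernel of
`K₀(F[G]) → ⨁ K₀(F_v[G]) / K₀(R_v[G])`. It is `K₋₁(R[G])` if `G` is finite, and a subgroup of
`K₋₁(R[G])` in general, by the localization sequence. It is shown that the assembly map
`α : colim KM(H) → KM(G)`, where `H` runs through the finite subgroups of `G`, is injective up to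
torsion, for every group `G`. Moreover up to torsion `KM(G)` is the direct sum of the image of `α` and
the group `TzM` of the classes of the families in `⨁ K₀(F_v[G])` whose Hattori–Stallings ranks vanish at
the elements of finite order.

The definitions are in `Pool.Agent.T9h42.DD.StmD`, `Pool.Agent.T9h42.DD.StmC`,
`Pool.Agent.T9h42.SP.StmR` and `Pool.Agent.T9h42.SP.StmS`. The proof is the theorem in degree zero for
`G × ℤ`.
-/

set_option autoImplicit false

namespace Pool.Agent.Results.MP_f7db47_al.DegreeMinusOneDedekind

open Pool.Agent.T9h42 Pool.Agent.T9h42.KD Pool.Agent.T9h42.KS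
open Pool.Agent.Y69 (FinSub)

theorem result (R F G : Type) [CommRing R] [IsDedekindDomain R] [Field F] [Algebra R F]
    [IsFractionRing R F] [CharZero F] [Group G] :
    ∃ α : KMColim (ded R F) G →+ KM (ded R F) G,
      (∀ (H : FinSub G) (x : KM (ded R F) H.1),
        α (KMColim.ι H x) = KM.map (ded R F) H.1.subtype x) ∧
      (∀ (x : KMColim (ded R F) G) (n : ℕ), 0 < n → n • α x = 0 → ∃ l : ℕ, 0 < l ∧ l • x = 0) ∧
      Splits α (TzM (ded R F) G) ⊥ :=
  ⟨asm (ded R F) G, asm_ι (ded R F) G, fun x n hn hx => main_minus (ded R F) ded_good x n hn hx,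
    KM_splits ded_good⟩

end Pool.Agent.Results.MP_f7db47_al.DegreeMinusOneDedekind
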