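import Pool.Agent.T9h42.GZ.OneQ

/-!
# The assembly map in degree one for fields of characteristic zero is rationally injective

Let `k` be a field of characteristic zero and `G` any group. After tensoring with the rational
numbers the source of the assembly map in degree one is the sum of `colim K₁(k[H])`, `H` the finite
subgroups of `G`, and the group of the symbols `[H, z, x]`, `x ∈ K₀(k[H])`, `z` in the centralizer of
`H`. It is shown that the assembly map is injective on this sum, up to torsion. There is no
hypothesis on `G`.

The groups `K₁`, `GK1`, `ColimK1` and the map `assembly` are defined in `Pool.Agent.Y69.WhDef` and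
`Pool.Agent.Y69.TK.KDef`, the group `K₀` in `Pool.Agent.Y778.NK.K0Def`, the group `ZK` in
`Pool.Agent.T9h42.DP.SyK`, and `IsTwist` and `RatInj` in `Pool.Agent.T9h42.DP.Stm`.

Outline of the proof. The Dennis trace to the part of the first Hochschild homology of `k[G]` given by
the elements of finite order vanishes on `colim K₁(k[H])`. By Artin induction a multiple of an element
of the group of symbols is a sum of symbols on cyclic groups `C` with characters supported on the
generators of `C`. If its traces vanish, one averages over the automorphisms of `C` given by
conjugation in `G` and splits the characters with orthogonal idempotents; the elements `z` that remain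
are killed by all homomorphisms from the centralizer of `C` to `k`, and so they have finite order in
the abelianization. On `colim K₁(k[H])` the injectivity is a theorem of the starting library.
-/

set_option autoImplicit false

namespace Pool.Agent.Results.MP_f7db47_al.DegreeOneCharZero

open Pool.Agent.T9h42 Pool.Agent.Y69.FJK

theorem result (k G : Type) [Field k] [CharZero k] [Group G] :
    ∃ β : ZK k G →+ GK1 k G, IsTwist β ∧ RatInj β := by
  refine ⟨Q.btG k G, ?_, ?_⟩
  · intro H z n e
    exact ⟨Q.twU k H z e, rfl, Q.btG_mk k H z n e⟩
  · intro x ξ n hn h
    exact Q.main_one x ξ n hn h

end Pool.Agent.Results.MP_f7db47_al.DegreeOneCharZero
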