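import Pool.Agent.T9h42.SP.One
import Pool.Agent.T9h42.DD.MainD

/-!
# The Dennis traces of `K₁(R[G])` at the elements of finite order come from finite subgroups

Let `R` be a Noetherian integrally closed domain of characteristic zero, for instance a field, with
field of fractions `F`, and let `G` be any group. Let `β : ZK(R, G) → K₁(R[G])`,
`[H, z, [e]] ↦ [1 - e + e z]`, be the part of the assembly map in degree one given by `K₀` of the finite
subgroups. Let `Tz1` be the group of the classes in `K₁(R[G])` whose Dennis trace vanishes at the
elements of finite order, for all Hochschild cocycles with integral values.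

It is shown that, up to torsion, `K₁(R[G])` is the sum of the image of `β` and `Tz1`, and that `β(y)` is
in `Tz1` only if a multiple of the image of `y` in `ZK(F, G)` is a combination of symbols `[C, z, x]`,
`C` cyclic, `z` killed by all homomorphisms from the centralizer of `C` to the integers. So the Dennis
trace of every class of `K₁(R[G])` at the elements of finite order is, up to a positive factor, the one
of a combination of symbols, as the Farrell–Jones conjecture predicts for regular `R`. In particular
its values are in a cyclotomic field, even if `R` is not algebraic over the integers.

The definitions are in `Pool.Agent.T9h42.SP.StmR`, `Pool.Agent.T9h42.DP.Stm` and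
`Pool.Agent.T9h42.GZ.Stm`.

Outline of the proof. Let `b` be in `K₁(F[G])`, `C` a finite cyclic subgroup, `χ` a homomorphism from
its centralizer to the integers, `T_h` the trace of `b` at the generator `h` of `C` with respect to `χ`
and `ψ` a character of `C` with values in an algebraic closure. Let `A` be the ring generated by the
coefficients of a matrix for `b`, those of the inverse matrix, and roots of unity. The Frobenius
congruence for the Dennis trace and the vanishing of the traces at the elements of order divisible by
`q` give `T_{h^q} = T_h^q` modulo `q A`, so `t = ∑ T_h ψ(h)` satisfies `t^q = t` modulo `q A` for almost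
all primes `q`. This implies that `t` is rational: specialize `A` to number fields, where almost all
primes split completely in the field generated by `t`; if `t` were transcendental, one could specialize
it to the square root of a prime number. So a multiple of `∑ T_h h` is a combination of idempotents of
`F[C]`, and with dual bases of the homomorphisms to the integers one gets a combination of symbols with
the traces of a multiple of `b`. If `b` comes from `R`, its traces at the elements of non-invertible
order vanish, and the idempotents of `F[C]` for `C` of invertible order are in `R[C]`.
-/

set_option autoImplicit false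

namespace Pool.Agent.Results.MP_f7db47_al.DegreeOneTraces

open Pool.Agent.T9h42 Pool.Agent.T9h42.KS Pool.Agent.Y69.FJK
open Pool.Agent.Y69 (FinSub)

theorem result (R F G : Type) [CommRing R] [IsDomain R] [IsNoetherianRing R]
    [IsIntegrallyClosed R] [Field F] [Algebra R F] [IsFractionRing R F] [CharZero F] [Group G] :
    ∃ (β : ZK R G →+ GK1 R G) (γ : ZK R G →+ ZK F G), IsTwist β ∧
      (∀ (H : FinSub G) (z : Cz H.1) (x : GK0 R H.1),
        γ (ZK.of H z x) = ZK.of H z (coef (algebraMap R F) H.1 x)) ∧
      Splits β (Tz1 R G) ((DvK F G).comap γ) ∧
      (ZTor G → Splits β (Tz1 R G) γ.ker) ∧
      ((∀ C : FinSub G, IsCyclic C.1 → Group.FG (Abelianization (Cz C.1))) →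
        Splits β (Tz1 R G) γ.ker) := by
  refine ⟨Q.btG R G, gam R F G, ?_, gam_of R F G, dom_splits R F G,
    fun hyp => dom_splits_sep R F G hyp,
    fun hfg => dom_splits_sep R F G (Pool.Agent.T9h42.KD.zsep_fg hfg)⟩
  intro H z n e
  exact ⟨Q.twU R H z e, rfl, Q.btG_mk R H z n e⟩

end Pool.Agent.Results.MP_f7db47_al.DegreeOneTraces
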