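import Pool.Agent.T9h42.DD.Val
import Pool.Agent.T9h42.SP.Zero

/-!
# The assembly map in degree zero for Dedekind domains of characteristic zero

Let `R` be a Dedekind domain of characteristic zero with field of fractions `F`. For a nonzero prime
ideal `v` let `F_v` and `R_v` be the completions. For a finite group `H` let `KM(H)` be the cokernel of
`K₀(F[H]) → ⨁ K₀(F_v[H]) / K₀(R_v[H])`, which is `K₋₁(R[H])`. For a group `G` let `KO(G)` be the
cokernel of `K₁(F[G]) → ⨁ K₁(F_v[G]) / K₁(R_v[G])`, a subgroup of `K₀(R[G])` by the localization
sequence. It is shown that up to torsion every element of the kernel of the map from the group of the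
symbols `[H, z, x]`, `x ∈ KM(H)`, `z` in the centralizer of `H`, to `KO(G)` is a combination of symbols
`[C, z, x]` with `C` cyclic and `z` in the kernel of all homomorphisms from the centralizer of `C` to
the integers. So the map is injective up to torsion if the abelianizations of the centralizers of the
finite cyclic subgroups are finitely generated. After tensoring with the rational numbers the group of
symbols is the part given by `K₋₁` of the source of the assembly map in degree zero.

Moreover up to torsion `KO(G)` is the sum of the image of this map and the group `TzO` of the classes of
the families in `⨁ K₁(F_v[G])` whose Dennis traces vanish at the elements of finite order, and the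
preimage of `TzO` is, up to torsion, the group of the combinations of symbols above.

The definitions are in `Pool.Agent.T9h42.DD.StmD`, `Pool.Agent.T9h42.SP.StmR` and
`Pool.Agent.T9h42.SP.StmS`.

Outline of the proof. The Dennis traces of the elements of `K₁(R_v[G])` at the elements of `G` of
finite order `m` vanish if `m` is not invertible in `R_v`. So, if `b ∈ K₁(F[G])` is a global class with
the given local classes, the traces of `b` at the generators of a cyclic group `C` of such an order are
the coefficients of combinations of idempotents of `F_v[C]`; as they are in `F`, they are the
coefficients of combinations of idempotents of `F[C]`, and with a dual basis of the homomorphisms from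
the centralizer of `C` to the integers one gets a combination of symbols over `F` with the traces of a
multiple of `b`. The sum of the local classes of a symbol over `F` vanishes. So one is left with local
classes whose traces at the elements of non-invertible order vanish, and these are treated as in degree
one over fields, with the idempotents of `F_v[C]` for `C` of invertible order, which are in `R_v[C]`.
-/

set_option autoImplicit false

namespace Pool.Agent.Results.MP_f7db47_al.DegreeZeroDedekind

open Pool.Agent.T9h42 Pool.Agent.T9h42.KD Pool.Agent.T9h42.KS
open Pool.Agent.Y69 (FinSub)

theorem result (R F G : Type) [CommRing R] [IsDedekindDomain R] [Field F] [Algebra R F]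
    [IsFractionRing R F] [CharZero F] [Group G] :
    ∃ β : ZM (ded R F) G →+ KO (ded R F) G, IsTwistM β ∧ KerInM β (DvM (ded R F) G) ∧
      Splits β (TzO (ded R F) G) (DvM (ded R F) G) ∧
      (ZSep G → RatInjM β ∧ Splits β (TzO (ded R F) G) ⊥) ∧
      ((∀ C : FinSub G, IsCyclic C.1 → Group.FG (Abelianization (Cz C.1))) → ZSep G) := by
  have h1 : KerInM (bM (ded R F) G) (DvM (ded R F) G) := fun ξ n hn h => main ded_good ξ n hn h
  have h2 : ZSep G → RatInjM (bM (ded R F) G) := by
    intro hyp ξ n hn h
    obtain ⟨l, hl, h3⟩ := h1 ξ n hn h
    obtain ⟨m, hm, h4⟩ := dvM_tors hyp h3
    exact ⟨m * l, Nat.mul_pos hm hl, by rw [mul_smul, h4]⟩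
  exact ⟨bM (ded R F) G, isTwistM, h1, KO_splits ded_good,
    fun hyp => ⟨h2 hyp, KO_splits_sep ded_good hyp⟩, zsep_fg⟩

end Pool.Agent.Results.MP_f7db47_al.DegreeZeroDedekind
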